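import Pool.Agent.Y682.YR.Alg

/-!
# Irreducible representations in the points over a Galois extension

`W` is a Weierstrass equation over the integers, `L` a Galois extension of `ℚ`, and `K` a subfield of
`L` such that the ranks over `K` and over `ℚ` are the same.  Then the vectors of `ℂ ⊗ W(L)` which are
fixed by the Galois group of `L / K` are fixed by the Galois group of `L / ℚ`.
-/

set_option autoImplicit false

open NumberField WeierstrassCurve TensorProduct

namespace Pool.Agent.V11291.MR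

open scoped Classical

open Pool.Agent.Y682.XF (base rank)
open Pool.Agent.Y686.XF (io io_injective io_io)
open Pool.Agent.Y682.YR (tors_of_rank tensor_torsion map_eq_id fgK)

/-- the action of an automorphism on `ℂ ⊗ W(L)` -/
noncomputable def act {L : Type} [Field L] [NumberField L] (W : WeierstrassCurve ℤ)
    (σ : L ≃ₐ[ℚ] L) : (ℂ ⊗[ℤ] (base W L).toAffine.Point) →ₗ[ℂ] (ℂ ⊗[ℤ] (base W L).toAffine.Point) :=
  (io W (σ : L →+* L)).toIntLinearMap.baseChange ℂ

/-- the homomorphisms from `ρ` to `ℂ ⊗ W(L)` -/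
def Homs {L : Type} [Field L] [NumberField L] (W : WeierstrassCurve ℤ) {V : Type} [AddCommGroup V]
    [Module ℂ V] (ρ : (L ≃ₐ[ℚ] L) →* (V →ₗ[ℂ] V)) :
    Submodule ℂ (V →ₗ[ℂ] (ℂ ⊗[ℤ] (base W L).toAffine.Point)) where
  carrier := {f | ∀ σ v, f (ρ σ v) = act W σ (f v)}
  zero_mem' := fun σ v => by simp
  add_mem' := fun {f g} hf hg σ v => by
    rw [LinearMap.add_apply, LinearMap.add_apply, map_add, hf σ v, hg σ v]
  smul_mem' := fun c f hf σ v => by
    rw [LinearMap.smul_apply, LinearMap.smul_apply, map_smul, hf σ v]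

/-- irreducible representations -/
def Irr {G V : Type} [Group G] [AddCommGroup V] [Module ℂ V] (ρ : G →* (V →ₗ[ℂ] V)) : Prop :=
  Nontrivial V ∧ ∀ U : Submodule ℂ V, (∀ g, ∀ v ∈ U, ρ g v ∈ U) → U = ⊥ ∨ U = ⊤

section

variable {L : Type} [Field L] [NumberField L] (W : WeierstrassCurve ℤ)

lemma act_tmul (σ : L ≃ₐ[ℚ] L) (z : ℂ) (P : (base W L).toAffine.Point) :
    act W σ (z ⊗ₜ[ℤ] P) = z ⊗ₜ[ℤ] io W (σ : L →+* L) P := by
  unfold act
  rw [LinearMap.baseChange_tmul]
  rfl

lemma io_mul (σ τ : L ≃ₐ[ℚ] L) (P : (base W L).toAffine.Point) :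
    io W (σ : L →+* L) (io W (τ : L →+* L) P) = io W ((σ * τ : L ≃ₐ[ℚ] L) : L →+* L) P := by
  rw [io_io]
  rfl

/-- the kernel of a homomorphism from an irreducible representation -/
lemma ker_hom {V : Type} [AddCommGroup V] [Module ℂ V] {ρ : (L ≃ₐ[ℚ] L) →* (V →ₗ[ℂ] V)}
    (hρ : Irr ρ) {f : V →ₗ[ℂ] (ℂ ⊗[ℤ] (base W L).toAffine.Point)} (hf : f ∈ Homs W ρ) (h0 : f ≠ 0) :
    Function.Injective f := by
  rw [← LinearMap.ker_eq_bot]
  rcases hρ.2 (LinearMap.ker f) (fun σ v hv => by
    rw [LinearMap.mem_ker] at hv ⊢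
    have h1 : f (ρ σ v) = act W σ (f v) := hf σ v
    rw [h1, hv, map_zero]) with h | h
  · exact h
  · exact absurd (LinearMap.ker_eq_top.1 h) h0

/-- a subfield with the same rank: the automorphisms over the subfield act trivially -/
theorem act_triv {F₀ : Type} [Field F₀] [NumberField F₀] (i : F₀ →+* L) (hW : W.Δ ≠ 0)
    (hr : rank L W = rank F₀ W) (σ : L ≃ₐ[ℚ] L) (hσ : ∀ x, σ (i x) = i x)
    (v : ℂ ⊗[ℤ] (base W L).toAffine.Point) : act W σ v = v := by
  have hK := fgK (K := L) hW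
  have hF := fgK (K := F₀) hW
  have key := map_eq_id (io W (σ : L →+* L)) (fun b => by
    obtain ⟨n, hn, a, ha⟩ := tors_of_rank (io W i) (io_injective W _) hr b
    refine ⟨n, hn, ?_⟩
    rw [smul_sub, ← map_zsmul, ha, io_io]
    have h3 : ((σ : L →+* L).comp i) = i := by
      ext x
      exact hσ x
    rw [h3, sub_self]) v
  have h2 : act W σ v = (io W (σ : L →+* L)).toIntLinearMap.lTensor ℂ v := by
    induction v with
    | zero => rw [map_zero, map_zero]
    | tmul z b =>
      rw [act_tmul, LinearMap.lTensor_tmul]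
      rfl
    | add x y hx hy =>
      have key1 := map_eq_id (io W (σ : L →+* L)) (fun b => by
        obtain ⟨n, hn, a, ha⟩ := tors_of_rank (io W i) (io_injective W _) hr b
        refine ⟨n, hn, ?_⟩
        rw [smul_sub, ← map_zsmul, ha, io_io]
        have h3 : ((σ : L →+* L).comp i) = i := by
          ext x
          exact hσ x
        rw [h3, sub_self])
      rw [map_add, map_add, hx (key1 x), hy (key1 y)]
  rw [h2, key]

/-- a subfield with the same rank: representations which are not trivial on the automorphisms over the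
subfield do not occur -/
theorem homs_bot {F₀ : Type} [Field F₀] [NumberField F₀] (i : F₀ →+* L) (hW : W.Δ ≠ 0)
    (hr : rank L W = rank F₀ W) {V : Type} [AddCommGroup V] [Module ℂ V]
    {ρ : (L ≃ₐ[ℚ] L) →* (V →ₗ[ℂ] V)} (hρ : Irr ρ) (σ : L ≃ₐ[ℚ] L) (hσ : ∀ x, σ (i x) = i x)
    (h : ρ σ ≠ 1) : Homs W ρ = ⊥ := by
  rw [eq_bot_iff]
  intro f hf
  rw [Submodule.mem_bot]
  by_contra h0
  have hinj := ker_hom W hρ hf h0
  apply h
  ext v
  apply hinj
  have h1 : f (ρ σ v) = act W σ (f v) := hf σ v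
  rw [h1, act_triv W i hW hr σ hσ, Module.End.one_apply]

/-- no points up to torsion -/
theorem homs_zero (hW : W.Δ ≠ 0) (hr : rank L W = 0) {V : Type} [AddCommGroup V] [Module ℂ V]
    (ρ : (L ≃ₐ[ℚ] L) →* (V →ₗ[ℂ] V)) : Homs W ρ = ⊥ := by
  have hK := fgK (K := L) hW
  have hall : ∀ v : ℂ ⊗[ℤ] (base W L).toAffine.Point, v = 0 := by
    intro v
    induction v with
    | zero => rfl
    | tmul z b =>
      have h1 := Module.finrank_eq_zero_iff_isTorsion.1 hr
      obtain ⟨⟨n, hn⟩, h⟩ := @h1 b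
      exact tensor_torsion z (nonZeroDivisors.ne_zero hn) h
    | add x y hx hy => rw [hx, hy, add_zero]
  rw [eq_bot_iff]
  intro f _
  rw [Submodule.mem_bot]
  ext v
  rw [hall (f v), LinearMap.zero_apply]

end

section

variable {L : Type} [Field L] [NumberField L] (W : WeierstrassCurve ℤ)

/-- a point which is fixed by the Galois group of `L / K` is defined over `K` -/
lemma descend {K : Type} [Field K] [NumberField K] (i : K →+* L)
    (hfix : ∀ x : L, (∀ σ : L ≃ₐ[ℚ] L, (∀ y, σ (i y) = i y) → σ x = x) → ∃ y, i y = x)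
    (P : (base W L).toAffine.Point)
    (hP : ∀ σ : L ≃ₐ[ℚ] L, (∀ y, σ (i y) = i y) → io W (σ : L →+* L) P = P) :
    ∃ Q : (base W K).toAffine.Point, io W i Q = P := by
  cases P with
  | zero => exact ⟨0, rfl⟩
  | some x y h =>
    have h1 : ∀ σ : L ≃ₐ[ℚ] L, (∀ y, σ (i y) = i y) → σ x = x ∧ σ y = y := by
      intro σ hσ
      have h2 := hP σ hσ
      exact ⟨(Affine.Point.some.inj h2).1, (Affine.Point.some.inj h2).2⟩
    obtain ⟨x', hx⟩ := hfix x fun σ hσ => (h1 σ hσ).1
    obtain ⟨y', hy⟩ := hfix y fun σ hσ => (h1 σ hσ).2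
    subst hx
    subst hy
    have hns : (base W K).toAffine.Nonsingular x' y' :=
      (W.toAffine.baseChange_nonsingular (S := ℤ)
        (f := i.toIntAlgHom) i.injective ..).mp h
    exact ⟨Affine.Point.some _ _ hns, rfl⟩

/-- **the vectors fixed by the Galois group of `L / K` are fixed** -/
theorem fixed_all {K Q : Type} [Field K] [NumberField K] [Field Q] [NumberField Q] (i : K →+* L)
    (j : Q →+* K)
    (hfix : ∀ x : L, (∀ σ : L ≃ₐ[ℚ] L, (∀ y, σ (i y) = i y) → σ x = x) → ∃ y, i y = x)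
    (hW : W.Δ ≠ 0) (hr : rank K W = rank Q W)
    (w : ℂ ⊗[ℤ] (base W L).toAffine.Point)
    (hw : ∀ σ : L ≃ₐ[ℚ] L, (∀ y, σ (i y) = i y) → act W σ w = w) (τ : L ≃ₐ[ℚ] L)
    (hτ : ∀ x, τ (i (j x)) = i (j x)) :
    act W τ w = w := by
  have hK := fgK (K := K) hW
  have hQ := fgK (K := Q) hW
  set H : Finset (L ≃ₐ[ℚ] L) := Finset.univ.filter fun σ => ∀ y, σ (i y) = i y with hH
  have h1H : (1 : L ≃ₐ[ℚ] L) ∈ H := by
    rw [hH, Finset.mem_filter]
    exact ⟨Finset.mem_univ _, fun x => rfl⟩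
  have hcard : (H.card : ℂ) ≠ 0 := by
    exact_mod_cast Finset.card_ne_zero_of_mem h1H
  -- the sum over the group
  have hsum : ∀ u : ℂ ⊗[ℤ] (base W L).toAffine.Point,
      act W τ (∑ σ ∈ H, act W σ u) = ∑ σ ∈ H, act W σ u := by
    intro u
    induction u with
    | zero => simp
    | tmul z P =>
      have e1 : ∑ σ ∈ H, act W σ (z ⊗ₜ[ℤ] P) = z ⊗ₜ[ℤ] ∑ σ ∈ H, io W (σ : L →+* L) P := by
        rw [TensorProduct.tmul_sum]
        exact Finset.sum_congr rfl fun σ _ => act_tmul W σ z P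
      rw [e1, act_tmul]
      set R := ∑ σ ∈ H, io W (σ : L →+* L) P with hRd
      obtain ⟨R', hR'⟩ := descend W i hfix R (fun σ' hσ' => by
        rw [hRd, map_sum]
        refine Finset.sum_bij (fun σ _ => σ' * σ) (fun σ hσ => ?_) (fun a _ b _ h => ?_)
          (fun b hb => ?_) (fun σ _ => io_mul W σ' σ P)
        · rw [hH, Finset.mem_filter] at hσ ⊢
          exact ⟨Finset.mem_univ _, fun y => by
            rw [AlgEquiv.mul_apply, hσ.2 y, hσ' y]⟩
        · exact mul_left_cancel h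
        · refine ⟨σ'⁻¹ * b, ?_, mul_inv_cancel_left σ' b⟩
          rw [hH, Finset.mem_filter] at hb ⊢
          refine ⟨Finset.mem_univ _, fun y => ?_⟩
          rw [AlgEquiv.mul_apply, hb.2 y]
          have h2 : σ'⁻¹ (σ' (i y)) = i y := by
            rw [← AlgEquiv.mul_apply, inv_mul_cancel, AlgEquiv.one_apply]
          rwa [hσ' y] at h2)
      obtain ⟨n, hn, a, ha⟩ := tors_of_rank (io W j) (io_injective W _) hr R'
      have h4 : n • (io W (τ : L →+* L) R - R) = 0 := by
        rw [← hR', smul_sub, ← map_zsmul, ← map_zsmul, ha, io_io, io_io, io_io]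
        have h3 : ((τ : L →+* L).comp i).comp j = i.comp j := by
          ext x
          exact hτ x
        have h5 : (τ : L →+* L).comp (i.comp j) = i.comp j := by
          ext x
          exact hτ x
        first
          | rw [h3, sub_self]
          | rw [h5, sub_self]
      have h5 := tensor_torsion z hn h4
      rw [TensorProduct.tmul_sub, sub_eq_zero] at h5
      exact h5
    | add x y hx hy =>
      have e1 : ∑ σ ∈ H, act W σ (x + y) = ∑ σ ∈ H, act W σ x + ∑ σ ∈ H, act W σ y := by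
        rw [← Finset.sum_add_distrib]
        exact Finset.sum_congr rfl fun σ _ => map_add _ _ _
      rw [e1, map_add, hx, hy]
  have e1 : ∑ σ ∈ H, act W σ w = (H.card : ℂ) • w := by
    rw [Finset.sum_congr rfl fun σ hσ => hw σ (Finset.mem_filter.1 hσ).2, Finset.sum_const,
      Nat.cast_smul_eq_nsmul]
  have e2 := hsum w
  rw [e1, map_smul] at e2
  exact smul_right_injective _ hcard e2

/-- **the constituents of the permutation representation** -/
theorem homs_perm {K Q : Type} [Field K] [NumberField K] [Field Q] [NumberField Q] (i : K →+* L)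
    (j : Q →+* K)
    (hfix : ∀ x : L, (∀ σ : L ≃ₐ[ℚ] L, (∀ y, σ (i y) = i y) → σ x = x) → ∃ y, i y = x)
    (hW : W.Δ ≠ 0) (hr : rank K W = rank Q W) (hQ : ∀ (τ : L ≃ₐ[ℚ] L) x, τ (i (j x)) = i (j x))
    {V : Type} [AddCommGroup V] [Module ℂ V]
    {ρ : (L ≃ₐ[ℚ] L) →* (V →ₗ[ℂ] V)} (hρ : Irr ρ) (hnt : ρ ≠ 1)
    {v : V} (hv0 : v ≠ 0) (hv : ∀ σ : L ≃ₐ[ℚ] L, (∀ y, σ (i y) = i y) → ρ σ v = v) :
    Homs W ρ = ⊥ := by
  rw [eq_bot_iff]
  intro f hf
  rw [Submodule.mem_bot]
  by_contra h0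
  have hinj := ker_hom W hρ hf h0
  have hfv : ∀ τ : L ≃ₐ[ℚ] L, ρ τ v = v := by
    intro τ
    apply hinj
    have h1 : f (ρ τ v) = act W τ (f v) := hf τ v
    rw [h1]
    refine fixed_all W i j hfix hW hr (f v) (fun σ hσ => ?_) τ (hQ τ)
    have h2 : f (ρ σ v) = act W σ (f v) := hf σ v
    rw [← h2, hv σ hσ]
  -- the fixed vectors form an invariant subspace
  set U : Submodule ℂ V :=
    { carrier := {u | ∀ τ : L ≃ₐ[ℚ] L, ρ τ u = u}
      zero_mem' := fun τ => map_zero _
      add_mem' := fun {a b} ha hb τ => by rw [map_add, ha τ, hb τ]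
      smul_mem' := fun c a ha τ => by rw [map_smul, ha τ] } with hU
  rcases hρ.2 U (fun g u hu => by
    have h3 : ρ g u = u := hu g
    rw [h3]
    exact hu) with h | h
  · have h4 : v ∈ U := hfv
    rw [h, Submodule.mem_bot] at h4
    exact hv0 h4
  · apply hnt
    ext τ u
    have h4 : u ∈ U := by rw [h]; exact Submodule.mem_top
    exact h4 τ

end

end Pool.Agent.V11291.MR
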